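import Pool.Agent.W120.WM.Defs2
import Pool.Agent.H370R2.DirGood

set_option autoImplicit false

open MeasureTheory Filter Topology Set Complex

namespace Pool.Agent.W653.WM

open Pool.Agent.W120.WM

lemma wg_pos (y : ℝ) : 0 < Wg 0 y := by
  unfold Wg
  refine mul_pos (norm_pos_iff.mpr ?_) (norm_pos_iff.mpr ?_)
  · intro h
    have := congrArg Complex.re h
    norm_num at this
  · exact Complex.Gammaℝ_ne_zero_of_re_pos (by norm_num)

lemma norm_conj' (s : ℂ) : ‖Gammaℝ ((starRingEnd ℂ) s)‖ = ‖Gammaℝ s‖ := by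
  rw [Gammaℝ_def, Gammaℝ_def, norm_mul, norm_mul]
  have h1 : ((starRingEnd ℂ) s / 2) = (starRingEnd ℂ) (s / 2) := by
    rw [map_div₀, map_ofNat]
  rw [h1, Gamma_conj, RCLike.norm_conj]
  congr 1
  rw [norm_cpow_eq_rpow_re_of_pos Real.pi_pos, norm_cpow_eq_rpow_re_of_pos Real.pi_pos]
  simp

lemma cos_norm (y : ℝ) :
    ‖Complex.cos ((Real.pi : ℂ) * (1 / 2 + y * I) / 2)‖ ^ 2 = Real.cosh (Real.pi * y) / 2 := by
  have h : Complex.cos ((Real.pi : ℂ) * (1 / 2 + y * I) / 2) =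
      ⟨Real.cos (Real.pi / 4) * Real.cosh (Real.pi * y / 2),
        -(Real.sin (Real.pi / 4) * Real.sinh (Real.pi * y / 2))⟩ := by
    rw [show (Real.pi : ℂ) * (1 / 2 + y * I) / 2 =
      ((Real.pi / 4 : ℝ) : ℂ) + ((Real.pi * y / 2 : ℝ) : ℂ) * I by push_cast; ring,
      Complex.cos_add_mul_I]
    rw [← ofReal_cos, ← ofReal_cosh, ← ofReal_sin, ← ofReal_sinh]
    have hx : ∀ a b c d : ℝ, ((a : ℂ) * (b : ℂ) - (c : ℂ) * (d : ℂ) * I) =
        ⟨a * b, -(c * d)⟩ := by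
      intro a b c d
      apply Complex.ext <;> simp
    exact hx _ _ _ _
  rw [h, Complex.sq_norm, Complex.normSq_mk, Real.cos_pi_div_four, Real.sin_pi_div_four]
  have h2 : Real.cosh (Real.pi * y) = Real.cosh (Real.pi * y / 2) ^ 2 +
      Real.sinh (Real.pi * y / 2) ^ 2 := by
    rw [← Real.cosh_two_mul]; congr 1; ring
  rw [h2]
  have h3 : √2 * √2 = (2 : ℝ) := Real.mul_self_sqrt (by norm_num)
  linear_combination ((Real.cosh (Real.pi * y / 2) ^ 2 + Real.sinh (Real.pi * y / 2) ^ 2) / 4) * h3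

lemma prod_eq (y : ℝ) : ‖Gammaℝ (⟨1 / 2, y⟩ : ℂ)‖ * ‖Gammaℝ (⟨3 / 2, y⟩ : ℂ)‖ =
    ‖Complex.cos ((Real.pi : ℂ) * (1 / 2 + y * I) / 2)‖⁻¹ := by
  have h := Complex.Gammaℝ_one_sub_mul_Gammaℝ_one_add (1 / 2 + y * I)
  have h1 : (1 : ℂ) - (1 / 2 + y * I) = (starRingEnd ℂ) (⟨1 / 2, y⟩ : ℂ) := by
    apply Complex.ext
    · simp; norm_num
    · simp
  have h2 : (1 : ℂ) + (1 / 2 + y * I) = (⟨3 / 2, y⟩ : ℂ) := by
    apply Complex.ext
    · simp; norm_num
    · simp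
  rw [h1, h2] at h
  have h3 := congrArg norm h
  rw [norm_mul, norm_conj', norm_inv] at h3
  exact h3

lemma diff_G {z : ℂ} (hz : 0 < z.re) : DifferentiableAt ℂ Gammaℝ z := by
  have h := (differentiable_Gammaℝ_inv z).inv (inv_ne_zero (Complex.Gammaℝ_ne_zero_of_re_pos hz))
  have h2 : (fun s : ℂ => (Gammaℝ s)⁻¹)⁻¹ = Gammaℝ := by
    funext s
    simp
  rwa [h2] at h

lemma logn (y s : ℝ) (hs : 0 < s) :
    HasDerivAt (fun s : ℝ => Real.log ‖Gammaℝ ((s : ℂ) + y * I)‖)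
      (logDeriv Gammaℝ ((s : ℂ) + y * I)).re s := by
  set z : ℂ := (s : ℂ) + y * I with hz
  have hre : 0 < z.re := by simp [hz, hs]
  have hd : HasDerivAt Gammaℝ (deriv Gammaℝ z) z := (diff_G hre).hasDerivAt
  have hne : Gammaℝ z ≠ 0 := Complex.Gammaℝ_ne_zero_of_re_pos hre
  have h1 : HasDerivAt (fun s : ℝ => (s : ℂ) + y * I) 1 s := by
    have := (Complex.ofRealCLM.hasDerivAt (x := s)).add_const ((y : ℂ) * I)
    simpa using this
  have h2 : HasDerivAt (fun s : ℝ => Gammaℝ ((s : ℂ) + y * I)) (deriv Gammaℝ z) s := by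
    have := HasDerivAt.scomp (h := fun s : ℝ => (s : ℂ) + y * I) s hd h1
    simpa [Function.comp_def] using this
  have h3 := h2.norm_sq
  have h4 := (h3.log (by positivity)).const_mul (1 / 2 : ℝ)
  have e1 : (fun s : ℝ => Real.log ‖Gammaℝ ((s : ℂ) + y * I)‖) =
      fun s : ℝ => 1 / 2 * Real.log (‖Gammaℝ ((s : ℂ) + y * I)‖ ^ 2) := by
    funext s
    rw [Real.log_pow]; push_cast; ring
  rw [e1]
  have e2 : (logDeriv Gammaℝ z).re =
      1 / 2 * (2 * inner ℝ (Gammaℝ z) (deriv Gammaℝ z) / ‖Gammaℝ z‖ ^ 2) := by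
    rw [Complex.inner, logDeriv_apply, Complex.div_re, ← Complex.normSq_eq_norm_sq]
    have hn : Complex.normSq (Gammaℝ z) ≠ 0 := by
      rw [Ne, Complex.normSq_eq_zero]; exact hne
    simp only [Complex.mul_re, Complex.conj_re, Complex.conj_im]
    field_simp
    ring
  rw [e2]
  exact h4

lemma big : ∃ C : ℝ, 0 ≤ C ∧ ∀ y : ℝ, 1 ≤ |y| → |Real.log (Wg 0 y) - ph y| ≤ C := by
  obtain ⟨C, hC0, hC⟩ := H370.DL.logDeriv_Gammaℝ_bound
  have hl2 : 0 < Real.log 2 := Real.log_pos (by norm_num)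
  refine ⟨C + 3 * Real.log 2, by positivity, fun y hy => ?_⟩
  have hy0 : 0 < |y| := by linarith
  set L := Real.log |y| with hL
  set A := Real.log ‖Gammaℝ (⟨1 / 2, y⟩ : ℂ)‖ with hA
  set B := Real.log ‖Gammaℝ (⟨3 / 2, y⟩ : ℂ)‖ with hB
  have hz : ∀ s : ℝ, ((s : ℂ) + y * I) = (⟨s, y⟩ : ℂ) := by
    intro s
    apply Complex.ext <;> simp
  -- (1)
  have h1 : |B - A - 1 / 2 * L| ≤ C := by
    have hd : ∀ x ∈ Icc (1 / 2 : ℝ) (3 / 2), HasDerivWithinAt
        (fun s : ℝ => Real.log ‖Gammaℝ ((s : ℂ) + y * I)‖ - s * (1 / 2 * L))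
        ((logDeriv Gammaℝ ((x : ℂ) + y * I)).re - 1 * (1 / 2 * L)) (Icc (1 / 2 : ℝ) (3 / 2)) x := by
      intro x hx
      exact ((logn y x (by linarith [hx.1])).sub
        ((hasDerivAt_id x).mul_const (1 / 2 * L))).hasDerivWithinAt
    have hb : ∀ x ∈ Icc (1 / 2 : ℝ) (3 / 2),
        ‖(logDeriv Gammaℝ ((x : ℂ) + y * I)).re - 1 * (1 / 2 * L)‖ ≤ C := by
      intro x hx
      have h := hC ((x : ℂ) + y * I) (by simp; linarith [hx.1]) (by simp; linarith [hx.2])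
        (by simpa using hy)
      have him : ((x : ℂ) + y * I).im = y := by simp
      rw [him] at h
      have h' := (Complex.abs_re_le_norm _).trans h
      have hre : (logDeriv Gammaℝ ((x : ℂ) + y * I) - 1 / 2 * ((Real.log |y| : ℝ) : ℂ)).re =
          (logDeriv Gammaℝ ((x : ℂ) + y * I)).re - 1 * (1 / 2 * L) := by
        rw [Complex.sub_re, show (1 / 2 * ((Real.log |y| : ℝ) : ℂ)) =
          ((1 / 2 * Real.log |y| : ℝ) : ℂ) by push_cast; ring, Complex.ofReal_re]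
        ring
      rw [hre] at h'
      rw [Real.norm_eq_abs]
      exact h'
    have h := Convex.norm_image_sub_le_of_norm_hasDerivWithin_le hd hb (convex_Icc _ _)
      (x := 1 / 2) (y := 3 / 2) (by constructor <;> norm_num) (by constructor <;> norm_num)
    simp only [hz] at h
    rw [Real.norm_eq_abs, Real.norm_eq_abs] at h
    have e : Real.log ‖Gammaℝ (⟨3 / 2, y⟩ : ℂ)‖ - 3 / 2 * (1 / 2 * L) -
        (Real.log ‖Gammaℝ (⟨1 / 2, y⟩ : ℂ)‖ - 1 / 2 * (1 / 2 * L)) = B - A - 1 / 2 * L := by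
      rw [hA, hB]; ring
    rw [e] at h
    refine h.trans (le_of_eq ?_)
    norm_num
  -- (2)
  have hc : 0 < Real.cosh (Real.pi * y) := Real.cosh_pos _
  have hcn : 0 < ‖Complex.cos ((Real.pi : ℂ) * (1 / 2 + y * I) / 2)‖ := by
    have h := cos_norm y
    rcases (norm_nonneg (Complex.cos ((Real.pi : ℂ) * (1 / 2 + y * I) / 2))).lt_or_eq with h' | h'
    · exact h'
    · rw [← h'] at h
      norm_num at h
      linarith
  have hlc : 2 * Real.log ‖Complex.cos ((Real.pi : ℂ) * (1 / 2 + y * I) / 2)‖ =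
      Real.log (Real.cosh (Real.pi * y)) - Real.log 2 := by
    rw [← Real.log_div hc.ne' (by norm_num), ← cos_norm y, Real.log_pow]
    push_cast; ring
  have hAB : A + B = -Real.log ‖Complex.cos ((Real.pi : ℂ) * (1 / 2 + y * I) / 2)‖ := by
    rw [hA, hB, ← Real.log_mul, prod_eq, Real.log_inv]
    · exact norm_ne_zero_iff.mpr (Complex.Gammaℝ_ne_zero_of_re_pos (by norm_num))
    · exact norm_ne_zero_iff.mpr (Complex.Gammaℝ_ne_zero_of_re_pos (by norm_num))
  -- (3)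
  have hcosh : Real.cosh (Real.pi * y) = Real.cosh (Real.pi * |y|) := by
    rcases abs_cases y with ⟨h, _⟩ | ⟨h, _⟩
    · rw [h]
    · rw [h, ← Real.cosh_neg]; congr 1; ring
  have hpy : 0 ≤ Real.pi * |y| := by positivity
  have h3a : Real.pi * |y| - Real.log 2 ≤ Real.log (Real.cosh (Real.pi * y)) := by
    rw [hcosh, Real.le_log_iff_exp_le (Real.cosh_pos _), Real.exp_sub, Real.exp_log (by norm_num),
      Real.cosh_eq]
    have := Real.exp_pos (-(Real.pi * |y|))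
    linarith
  have h3b : Real.log (Real.cosh (Real.pi * y)) ≤ Real.pi * |y| := by
    rw [hcosh, Real.log_le_iff_le_exp (Real.cosh_pos _), Real.cosh_eq]
    have : Real.exp (-(Real.pi * |y|)) ≤ Real.exp (Real.pi * |y|) :=
      Real.exp_le_exp.mpr (by linarith)
    linarith
  -- (4)
  have hn1 : |y| ≤ ‖(⟨0 - 1 / 2, y⟩ : ℂ)‖ := by
    have := Complex.abs_im_le_norm (⟨0 - 1 / 2, y⟩ : ℂ)
    simpa using this
  have hn2 : ‖(⟨0 - 1 / 2, y⟩ : ℂ)‖ ≤ 2 * |y| := by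
    have := Complex.norm_le_abs_re_add_abs_im (⟨0 - 1 / 2, y⟩ : ℂ)
    have e : |(0 - 1 / 2 : ℝ)| = 1 / 2 := by norm_num [abs_of_neg]
    simp only [e] at this
    linarith
  have h4a : L ≤ Real.log ‖(⟨0 - 1 / 2, y⟩ : ℂ)‖ := Real.log_le_log hy0 hn1
  have h4b : Real.log ‖(⟨0 - 1 / 2, y⟩ : ℂ)‖ ≤ Real.log 2 + L := by
    rw [hL, ← Real.log_mul (by norm_num) hy0.ne']
    exact Real.log_le_log (by linarith) hn2
  -- (5)
  have h5a : L ≤ Real.log (1 + |y|) := Real.log_le_log hy0 (by linarith)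
  have h5b : Real.log (1 + |y|) ≤ Real.log 2 + L := by
    rw [hL, ← Real.log_mul (by norm_num) hy0.ne']
    exact Real.log_le_log (by linarith) (by linarith)
  have hW : Real.log (Wg 0 y) = Real.log ‖(⟨0 - 1 / 2, y⟩ : ℂ)‖ + A := by
    unfold Wg
    have hp : (0 : ℝ) < ‖(⟨0 - 1 / 2, y⟩ : ℂ)‖ := by linarith
    rw [add_zero, Real.log_mul hp.ne']
    exact norm_ne_zero_iff.mpr (Complex.Gammaℝ_ne_zero_of_re_pos (by norm_num))
  rw [hW]
  unfold ph
  rw [abs_le] at h1 ⊢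
  obtain ⟨h1a, h1b⟩ := h1
  constructor <;> linarith

lemma small : ∃ C : ℝ, 0 ≤ C ∧ ∀ y : ℝ, |y| ≤ 1 → |Real.log (Wg 0 y) - ph y| ≤ C := by
  have hcont : ContinuousOn (fun y : ℝ => Real.log (Wg 0 y) - ph y) (Icc (-1) 1) := by
    have hW : Continuous (fun y : ℝ => Wg 0 y) := by
      unfold Wg
      have hm : ∀ a : ℝ, Continuous (fun y : ℝ => (⟨a, y⟩ : ℂ)) := by
        intro a
        have : (fun y : ℝ => (⟨a, y⟩ : ℂ)) = fun y : ℝ => (a : ℂ) + (y : ℂ) * I := by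
          funext y
          apply Complex.ext <;> simp
        rw [this]
        fun_prop
      refine (hm _).norm.mul ?_
      refine Continuous.norm ?_
      rw [continuous_iff_continuousAt]
      intro y
      have h1 : ContinuousAt Gammaℝ (⟨1 / 2 + 0, y⟩ : ℂ) :=
        (diff_G (z := (⟨1 / 2 + 0, y⟩ : ℂ)) (by norm_num)).continuousAt
      exact ContinuousAt.comp (f := fun y : ℝ => (⟨1 / 2 + 0, y⟩ : ℂ)) h1 (hm _).continuousAt
    refine Continuous.continuousOn ?_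
    refine (hW.log fun y => (wg_pos y).ne').sub ?_
    unfold ph
    refine Continuous.add (by fun_prop) ?_
    refine continuous_const.mul ?_
    refine Continuous.log (by fun_prop) fun y => ?_
    positivity
  obtain ⟨C, hC⟩ := isCompact_Icc.exists_bound_of_continuousOn hcont
  refine ⟨max C 0, le_max_right _ _, fun y hy => ?_⟩
  have := hC y (abs_le.mp hy)
  rw [Real.norm_eq_abs] at this
  exact this.trans (le_max_left _ _)

theorem t_STIR : U_STIR := by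
  obtain ⟨C1, h10, h1⟩ := big
  obtain ⟨C2, h20, h2⟩ := small
  refine ⟨C1 + C2 + 1, by positivity, fun y => ⟨wg_pos y, ?_⟩⟩
  rcases le_total 1 |y| with h | h
  · linarith [h1 y h]
  · linarith [h2 y h]

end Pool.Agent.W653.WM
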